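import Pool.Agent.H87RF.Defs

/-!
Basic lemmas: bump functions, discrete families, recursion, second countability.
-/

namespace Pool.Agent.H87RF

universe u v w

open Set Filter Topology

section rec

variable {W : Type u} [LinearOrder W] [WellFoundedLT W] {A : Type v}

/-- construction by transfinite recursion with choices -/
lemma exists_rec (P : ∀ w : W, (∀ v, v < w → A) → A → Prop)
    (h : ∀ w prev, ∃ a, P w prev a) : ∃ F : W → A, ∀ w, P w (fun v _ => F v) (F w) := by
  classical
  let step : ∀ w : W, (∀ v, v < w → A) → A := fun w prev => (h w prev).choose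
  let F : W → A := WellFounded.fix (C := fun _ => A) (wellFounded_lt : WellFounded ((· < ·) : W → W → Prop)) step
  refine ⟨F, fun w => ?_⟩
  have e : F w = step w (fun v _ => F v) :=
    WellFounded.fix_eq (C := fun _ => A) (wellFounded_lt : WellFounded ((· < ·) : W → W → Prop)) step w
  rw [e]
  exact (h w (fun v _ => F v)).choose_spec

end rec

section fam

variable {X : Type u} [TopologicalSpace X] {D : Type v} {U : D → Set X}

lemma IsDiscreteFamily.eq_of_mem (h : IsDiscreteFamily U) {x : X} {d e : D} (hd : x ∈ U d)
    (he : x ∈ U e) : d = e := by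
  obtain ⟨N, hN, hU⟩ := h x
  exact hU d e ⟨x, hd, mem_of_mem_nhds hN⟩ ⟨x, he, mem_of_mem_nhds hN⟩

lemma IsDiscreteFamily.locallyFinite (h : IsDiscreteFamily U) : LocallyFinite U := by
  intro x
  obtain ⟨N, hN, hU⟩ := h x
  refine ⟨N, hN, ?_⟩
  apply Set.Subsingleton.finite
  intro d hd e he
  exact hU d e hd he

lemma IsDiscreteFamily.comp (h : IsDiscreteFamily U) {E : Type w} {i : E → D}
    (hi : Function.Injective i) : IsDiscreteFamily (fun e => U (i e)) := by
  intro x
  obtain ⟨N, hN, hU⟩ := h x
  exact ⟨N, hN, fun d e hd he => hi (hU _ _ hd he)⟩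

/-- a sum of functions supported in the members of a discrete family is continuous -/
lemma IsDiscreteFamily.continuous_finsum (h : IsDiscreteFamily U) {F : D → X → ℝ}
    (hF : ∀ d, Continuous (F d)) (hs : ∀ d x, x ∉ U d → F d x = 0) :
    Continuous (fun x => ∑ᶠ d, F d x) := by
  refine _root_.continuous_finsum hF ?_
  refine h.locallyFinite.subset ?_
  intro d x hx
  by_contra hxU
  exact hx (hs d x hxU)

lemma IsDiscreteFamily.finsum_eq (h : IsDiscreteFamily U) {F : D → X → ℝ}
    (hs : ∀ d x, x ∉ U d → F d x = 0) {x : X} {d : D} (hx : x ∈ U d) :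
    ∑ᶠ e, F e x = F d x := by
  refine finsum_eq_single _ d ?_
  intro e he
  refine hs e x ?_
  intro hxe
  exact he (h.eq_of_mem hxe hx)

lemma finsum_eq_zero_of_not_mem {F : D → X → ℝ}
    (hs : ∀ d x, x ∉ U d → F d x = 0) {x : X} (hx : ∀ d, x ∉ U d) :
    ∑ᶠ e, F e x = 0 := by
  have : ∀ e, F e x = 0 := fun e => hs e x (hx e)
  simp [this]

end fam

section bump

variable {G : Type u} [Group G] [TopologicalSpace G] [IsTopologicalGroup G]

lemma completelyRegular : CompletelyRegularSpace G := by
  letI := IsTopologicalGroup.rightUniformSpace G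
  exact UniformSpace.toCompletelyRegularSpace

/-- bump functions on topological groups -/
lemma exists_bump {U : Set G} (hU : IsOpen U) {p : G} (hp : p ∈ U) :
    ∃ b : G → ℝ, Continuous b ∧ b p = 1 ∧ (∀ x, x ∉ U → b x = 0) ∧ ∀ x, 0 ≤ b x := by
  haveI := completelyRegular (G := G)
  obtain ⟨f, hf, h0, h1⟩ := CompletelyRegularSpace.completely_regular_isOpen p U hU hp
  refine ⟨fun x => 1 - (f x : ℝ), by fun_prop, by simp [h0], ?_, ?_⟩
  · intro x hx
    have : f x = 1 := h1 hx
    simp [this]
  · intro x
    have := (f x).2.2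
    linarith

end bump

section sc

variable {K : Type u} [TopologicalSpace K] [SecondCountableTopology K]

/-- in a second countable space, an uncountable indexed family of points has a member which is an
accumulation point (in the sense of indices) -/
lemma exists_accumulation {I : Type v} [Uncountable I] (q : I → K) :
    ∃ i, ∀ O ∈ nhds (q i), ∃ j, j ≠ i ∧ q j ∈ O := by
  by_contra hcon
  push Not at hcon
  obtain ⟨B, hBc, -, hB⟩ := TopologicalSpace.exists_countable_basis K
  choose O hO hOi using hcon
  have h1 : ∀ i, ∃ V ∈ B, q i ∈ V ∧ V ⊆ O i := fun i => by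
    obtain ⟨V, hV, hiV, hVO⟩ := hB.mem_nhds_iff.mp (hO i)
    exact ⟨V, hV, hiV, hVO⟩
  choose V hVB hiV hVO using h1
  have hinj : Function.Injective (fun i => (⟨V i, hVB i⟩ : B)) := by
    intro i j hij
    have hij' : V i = V j := congrArg Subtype.val hij
    by_contra hne
    exact hOi i j (fun h => hne h.symm) (hVO i (hij' ▸ hiV j))
  haveI := hBc.to_subtype
  exact not_countable (α := I) (hinj.countable)

/-- in a second countable space, a well ordered uncountable family of points has a member which
is in the closure of the set of the previous ones -/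
lemma exists_mem_closure {I : Type v} [LinearOrder I] [Uncountable I] (q : I → K) :
    ∃ i, q i ∈ closure (q '' Set.Iio i) := by
  by_contra hcon
  push Not at hcon
  obtain ⟨B, hBc, -, hB⟩ := TopologicalSpace.exists_countable_basis K
  have h1 : ∀ i, ∃ V ∈ B, q i ∈ V ∧ V ⊆ (closure (q '' Set.Iio i))ᶜ := fun i => by
    obtain ⟨V, hV, hiV, hVO⟩ := hB.mem_nhds_iff.mp (isClosed_closure.isOpen_compl.mem_nhds (hcon i))
    exact ⟨V, hV, hiV, hVO⟩
  choose V hVB hiV hVO using h1
  have hlt : ∀ i j, i < j → V i ≠ V j := by
    intro i j hij he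
    have : q i ∈ (closure (q '' Set.Iio j))ᶜ := hVO j (he ▸ hiV i)
    exact this (subset_closure ⟨i, hij, rfl⟩)
  have hinj : Function.Injective (fun i => (⟨V i, hVB i⟩ : B)) := by
    intro i j hij
    have hij' : V i = V j := congrArg Subtype.val hij
    rcases lt_trichotomy i j with h | h | h
    · exact absurd hij' (hlt i j h)
    · exact h
    · exact absurd hij'.symm (hlt j i h)
  haveI := hBc.to_subtype
  exact not_countable (α := I) (hinj.countable)

end sc

end Pool.Agent.H87RF
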