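import Mathlib

/-!
Definitions: `ℝ`-factorizable groups and discrete families of sets.
-/

namespace Pool.Agent.H87RF

universe u v

/-- `G` is `ℝ`-factorizable: every continuous real function on `G` factors through a continuous
homomorphism to a second-countable Hausdorff topological group. -/
def IsRFactorizable (G : Type u) [Group G] [TopologicalSpace G] : Prop :=
  ∀ f : G → ℝ, Continuous f →
    ∃ (K : Type u) (_ : Group K) (_ : TopologicalSpace K),
      IsTopologicalGroup K ∧ T2Space K ∧ SecondCountableTopology K ∧
      ∃ (h : G →* K) (g : K → ℝ), Continuous h ∧ Continuous g ∧ ∀ x, f x = g (h x)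

/-- `G` has an injective continuous homomorphism to a second-countable Hausdorff group. -/
def CondensesToSecondCountable (G : Type u) [Group G] [TopologicalSpace G] : Prop :=
  ∃ (K : Type u) (_ : Group K) (_ : TopologicalSpace K),
    IsTopologicalGroup K ∧ T2Space K ∧ SecondCountableTopology K ∧
    ∃ h : G →* K, Continuous h ∧ Function.Injective h

/-- A discrete family of sets: every point has a neighbourhood which meets at most one member. -/
def IsDiscreteFamily {X : Type u} [TopologicalSpace X] {D : Type v} (U : D → Set X) : Prop :=
  ∀ x : X, ∃ N ∈ nhds x, ∀ d e : D, (U d ∩ N).Nonempty → (U e ∩ N).Nonempty → d = e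

end Pool.Agent.H87RF
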