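import Pool.Agent.H87RF.Basic

/-!
In an `ℝ`-factorizable group there is no discrete family of nonempty open sets indexed by the reals.
-/

namespace Pool.Agent.H87RF

universe u v w

open Set Filter Topology Cardinal

/-- a well-order of the reals all of whose initial segments are small -/
abbrev W : Type := (Cardinal.continuum.{0}).ord.ToType

lemma mk_Iio_W (w : W) : #(Iio w) < 𝔠 := by
  have h := Cardinal.mk_Iio_lt (α := W) w (by simp)
  simpa using h

lemma exists_equiv_tests : Nonempty (W ≃ ℝ × (ℕ → ℝ)) := by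
  rw [← Cardinal.eq]
  simp [W, Cardinal.mk_real]

lemma exists_not_mem_range {w : W} (F : Iio w × Option ℕ → ℝ) : ∃ a : ℝ, a ∉ range F := by
  by_contra hcon
  push Not at hcon
  have h1 : #ℝ ≤ #(Iio w × Option ℕ) := Cardinal.mk_le_of_surjective hcon
  rw [Cardinal.mk_real] at h1
  have h2 : #(Iio w × Option ℕ) < 𝔠 := by
    rw [Cardinal.mk_prod]
    simp only [Cardinal.lift_id]
    refine Cardinal.mul_lt_of_lt Cardinal.aleph0_le_continuum (mk_Iio_W w) ?_
    simpa using Cardinal.aleph0_lt_continuum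
  exact absurd h1 (not_le.mpr h2)

theorem no_real_family {G : Type u} [Group G] [TopologicalSpace G] [IsTopologicalGroup G]
    (hG : IsRFactorizable G) {U : ℝ → Set G} (hd : IsDiscreteFamily U)
    (hU : ∀ d, IsOpen (U d)) (hne : ∀ d, (U d).Nonempty) : False := by
  classical
  obtain ⟨t⟩ := exists_equiv_tests
  choose p hp using hne
  have hbump := fun d => exists_bump (hU d) (hp d)
  choose b hbc hb1 hb0 hbn using hbump
  -- the test sequences
  let z : W → ℕ → G := fun v n => (p (t v).1)⁻¹ * p ((t v).2 n)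
  -- first recursion: the points
  obtain ⟨d, hdrec⟩ : ∃ d : W → ℝ, ∀ w : W, ∀ v, v < w →
      d v ≠ d w ∧ ∀ n, p (d v) * z v n ∉ U (d w) := by
    refine exists_rec (fun w prev a => ∀ v (hv : v < w), prev v hv ≠ a ∧
      ∀ n, p (prev v hv) * z v n ∉ U a) ?_
    intro w prev
    let F : Iio w × Option ℕ → ℝ := fun q =>
      match q.2 with
      | none => prev q.1.1 q.1.2
      | some n => if h : ∃ a, p (prev q.1.1 q.1.2) * z q.1.1 n ∈ U a then h.choose else 0
    obtain ⟨a, ha⟩ := exists_not_mem_range F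
    refine ⟨a, fun v hv => ⟨?_, ?_⟩⟩
    · intro h
      exact ha ⟨(⟨v, hv⟩, none), h⟩
    · intro n hn
      refine ha ⟨(⟨v, hv⟩, some n), ?_⟩
      have hex : ∃ a, p (prev v hv) * z v n ∈ U a := ⟨a, hn⟩
      change (if h : ∃ a, p (prev v hv) * z v n ∈ U a then h.choose else 0) = a
      rw [dif_pos hex]
      exact hd.eq_of_mem hex.choose_spec hn
  have hdinj : Function.Injective d := by
    intro v w hvw
    rcases lt_trichotomy v w with h | h | h
    · exact absurd hvw (hdrec w v h).1
    · exact h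
    · exact absurd hvw.symm (hdrec v w h).1
  -- second recursion: the signs
  obtain ⟨s, hs⟩ : ∃ s : W → Bool, ∀ w : W,
      {n | ∃ u, u < w ∧ p (d w) * z w n ∈ U (d u)}.Infinite →
      {n | ∃ u, u < w ∧ p (d w) * z w n ∈ U (d u) ∧ s u = !(s w)}.Infinite := by
    have := exists_rec (W := W) (A := Bool) (fun w prev a =>
      {n | ∃ u, u < w ∧ p (d w) * z w n ∈ U (d u)}.Infinite →
      {n | ∃ u, ∃ hu : u < w, p (d w) * z w n ∈ U (d u) ∧ prev u hu = !a}.Infinite) ?_
    · obtain ⟨s, hs⟩ := this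
      refine ⟨s, fun w hw => ?_⟩
      refine (hs w hw).mono ?_
      rintro n ⟨u, hu, h1, h2⟩
      exact ⟨u, hu, h1, h2⟩
    · intro w prev
      by_cases hinf : {n | ∃ u, ∃ hu : u < w, p (d w) * z w n ∈ U (d u) ∧
          prev u hu = true}.Infinite
      · exact ⟨false, fun _ => hinf⟩
      · refine ⟨true, fun h => ?_⟩
        by_contra hfin
        rw [Set.not_infinite] at hinf hfin
        refine h ((hinf.union hfin).subset ?_)
        rintro n ⟨u, hu, hn⟩
        cases hprev : prev u hu with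
        | true => exact Or.inl ⟨u, hu, hn, hprev⟩
        | false => exact Or.inr ⟨u, hu, hn, by simpa using hprev⟩
  let sg : W → ℝ := fun w => if s w then 1 else -1
  -- the function
  let Fw : W → G → ℝ := fun w x =>
    sg w * (b (d w) x * b (t w).1 (p (t w).1 * (p (d w))⁻¹ * x))
  have hdisc : IsDiscreteFamily (fun w => U (d w)) := hd.comp hdinj
  have hF0 : ∀ w x, x ∉ U (d w) → Fw w x = 0 := by
    intro w x hx
    simp [Fw, hb0 _ _ hx]
  have hFc : ∀ w, Continuous (Fw w) := by
    intro w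
    have h1 := hbc (d w)
    have h2 := hbc (t w).1
    fun_prop
  let f : G → ℝ := fun x => ∑ᶠ w, Fw w x
  have hf : Continuous f := hdisc.continuous_finsum hFc hF0
  have hfp : ∀ w, f (p (d w)) = sg w := by
    intro w
    have : f (p (d w)) = Fw w (p (d w)) := hdisc.finsum_eq hF0 (hp (d w))
    rw [this]
    simp [Fw, hb1]
  obtain ⟨K, _, _, hKg, hK2, hKs, h, g, hh, hg, hfac⟩ := hG f hf
  -- an accumulation point
  obtain ⟨i0, hi0⟩ := exists_accumulation (fun i : ℝ => h (p i))
  obtain ⟨B, hB⟩ := (𝓝 (h (p i0))).exists_antitone_basis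
  have hσ : ∀ n, ∃ j, j ≠ i0 ∧ h (p j) ∈ B n := fun n => hi0 (B n) (hB.mem n)
  choose σ hσ1 hσ2 using hσ
  have hlim : Tendsto (fun n => h (p (σ n))) atTop (𝓝 (h (p i0))) := hB.tendsto hσ2
  set w : W := t.symm (i0, σ) with hw
  have htw : t w = (i0, σ) := by simp [hw]
  have hzw : ∀ n, z w n = (p i0)⁻¹ * p (σ n) := by
    intro n
    simp [z, htw]
  have hlim2 : Tendsto (fun n => f (p (d w) * z w n)) atTop (𝓝 (sg w)) := by
    have h1 : Tendsto (fun n => h (p (d w)) * ((h (p i0))⁻¹ * h (p (σ n)))) atTop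
        (𝓝 (h (p (d w)) * ((h (p i0))⁻¹ * h (p i0)))) :=
      (hlim.const_mul _).const_mul _
    have h2 := (hg.tendsto _).comp h1
    have e1 : g (h (p (d w)) * ((h (p i0))⁻¹ * h (p i0))) = sg w := by
      rw [inv_mul_cancel, mul_one, ← hfac, hfp]
    rw [e1] at h2
    refine h2.congr ?_
    intro n
    simp only [Function.comp]
    rw [hfac, hzw]
    simp
  have hev : ∀ᶠ n in atTop, |f (p (d w) * z w n) - sg w| < 1 := by
    have := hlim2.eventually (Metric.ball_mem_nhds (sg w) one_pos)
    simpa [Real.dist_eq] using this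
  -- values of f at the test points
  have hcase1 : ∀ n, (¬ ∃ u, u < w ∧ p (d w) * z w n ∈ U (d u)) →
      f (p (d w) * z w n) = 0 := by
    intro n hn
    by_cases hmem : ∃ u, p (d w) * z w n ∈ U (d u)
    · obtain ⟨u, hu⟩ := hmem
      have huw : u = w := by
        rcases lt_trichotomy u w with h1 | h1 | h1
        · exact absurd ⟨u, h1, hu⟩ hn
        · exact h1
        · exact absurd hu ((hdrec u w h1).2 n)
      rw [huw] at hu
      have e1 : f (p (d w) * z w n) = Fw w (p (d w) * z w n) := hdisc.finsum_eq hF0 hu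
      rw [e1]
      have e2 : b (t w).1 (p (t w).1 * (p (d w))⁻¹ * (p (d w) * z w n)) = 0 := by
        rw [hzw, htw]
        have e3 : p i0 * (p (d w))⁻¹ * (p (d w) * ((p i0)⁻¹ * p (σ n))) = p (σ n) := by group
        simp only
        rw [e3]
        apply hb0
        intro hmem
        exact hσ1 n (hd.eq_of_mem (hp (σ n)) hmem)
      simp only [Fw]
      rw [e2]
      ring
    · push Not at hmem
      exact finsum_eq_zero_of_not_mem hF0 hmem
  have hcase2 : ∀ n u, u < w → p (d w) * z w n ∈ U (d u) → s u = !(s w) →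
      1 ≤ |f (p (d w) * z w n) - sg w| := by
    intro n u _ hmem hsu
    have e1 : f (p (d w) * z w n) = Fw u (p (d w) * z w n) := hdisc.finsum_eq hF0 hmem
    rw [e1]
    simp only [Fw]
    set r : ℝ := b (d u) (p (d w) * z w n) *
      b (t u).1 (p (t u).1 * (p (d u))⁻¹ * (p (d w) * z w n)) with hr
    have hr0 : 0 ≤ r := mul_nonneg (hbn _ _) (hbn _ _)
    cases hsw : s w with
    | true =>
      have h1 : sg w = 1 := by simp [sg, hsw]
      have h2 : sg u = -1 := by simp [sg, hsu, hsw]
      rw [h1, h2, abs_sub_comm]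
      refine le_trans ?_ (le_abs_self _)
      linarith
    | false =>
      have h1 : sg w = -1 := by simp [sg, hsw]
      have h2 : sg u = 1 := by simp [sg, hsu, hsw]
      rw [h1, h2]
      refine le_trans ?_ (le_abs_self _)
      linarith
  obtain ⟨M, hM⟩ := eventually_atTop.mp hev
  by_cases hN : {n | ∃ u, u < w ∧ p (d w) * z w n ∈ U (d u)}.Infinite
  · obtain ⟨n, ⟨u, hu1, hu2, hu3⟩, hn⟩ := (hs w hN).exists_gt M
    have := hM n hn.le
    have := hcase2 n u hu1 hu2 hu3
    linarith
  · rw [Set.not_infinite] at hN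
    obtain ⟨n, hnM, hn⟩ : ∃ n, n ∉ {n | ∃ u, u < w ∧ p (d w) * z w n ∈ U (d u)} ∧ M < n := by
      obtain ⟨n, hn1, hn2⟩ := hN.infinite_compl.exists_gt M
      exact ⟨n, hn1, hn2⟩
    have h1 := hM n hn.le
    rw [hcase1 n hnM] at h1
    have h2 : |0 - sg w| = 1 := by
      cases hsw : s w <;> simp [sg, hsw]
    linarith

end Pool.Agent.H87RF
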