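import Pool.Agent.H87RF.PartA
import Pool.Agent.H87RF.PartB

/-!
The main theorem on discrete families in `ℝ`-factorizable groups.
-/

namespace Pool.Agent.H87RF

universe u v w

open Set Filter Topology Cardinal

variable {G : Type u} [Group G] [TopologicalSpace G] [IsTopologicalGroup G]

theorem card_lt (hG : IsRFactorizable G) {D : Type v} {U : D → Set G} (hd : IsDiscreteFamily U)
    (hU : ∀ d, IsOpen (U d)) (hne : ∀ d, (U d).Nonempty) : #D < 𝔠 := by
  by_contra hcon
  rw [not_lt] at hcon
  have h1 : lift.{v} #ℝ ≤ lift.{0} #D := by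
    rw [Cardinal.mk_real]
    simpa using hcon
  rw [Cardinal.lift_mk_le'] at h1
  obtain ⟨i⟩ := h1
  exact no_real_family hG (hd.comp i.injective) (fun r => hU (i r)) (fun r => hne (i r))

theorem main [T2Space G] (hG : IsRFactorizable G) {D : Type v} [Uncountable D] {U : D → Set G}
    (hd : IsDiscreteFamily U) (hU : ∀ d, IsOpen (U d)) (hne : ∀ d, (U d).Nonempty) :
    #D < 𝔠 ∧ CondensesToSecondCountable G := by
  have hlt := card_lt hG hd hU hne
  refine ⟨hlt, ?_⟩
  have h1 : lift.{0} #D ≤ lift.{v} #ℝ := by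
    rw [Cardinal.mk_real]
    simpa using hlt.le
  rw [Cardinal.lift_mk_le'] at h1
  obtain ⟨ψ⟩ := h1
  obtain ⟨_, _⟩ := exists_wellFoundedLT D
  exact condenses hG hd hU hne ψ.injective

end Pool.Agent.H87RF
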