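import Pool.Agent.H87RF.Basic

/-!
An `ℝ`-factorizable group with an uncountable discrete family of nonempty open sets has an
injective continuous homomorphism to a second-countable group.
-/

namespace Pool.Agent.H87RF

universe u v w

open Set Filter Topology Cardinal

variable {G : Type u} [Group G] [TopologicalSpace G]

/-- if `G` has no injective continuous homomorphism to a second-countable group then three
continuous functions have a common nontrivial left period -/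
lemma exists_period [T2Space G] (hG : IsRFactorizable G) (hcon : ¬ CondensesToSecondCountable G)
    {f₁ f₂ f₃ : G → ℝ} (h₁ : Continuous f₁) (h₂ : Continuous f₂) (h₃ : Continuous f₃) :
    ∃ n : G, n ≠ 1 ∧ (∀ x, f₁ (n * x) = f₁ x) ∧ (∀ x, f₂ (n * x) = f₂ x) ∧
      ∀ x, f₃ (n * x) = f₃ x := by
  obtain ⟨K₁, _, _, _, _, _, k₁, g₁, hk₁, hg₁, e₁⟩ := hG f₁ h₁
  obtain ⟨K₂, _, _, _, _, _, k₂, g₂, hk₂, hg₂, e₂⟩ := hG f₂ h₂
  obtain ⟨K₃, _, _, _, _, _, k₃, g₃, hk₃, hg₃, e₃⟩ := hG f₃ h₃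
  let k : G →* K₁ × K₂ × K₃ := k₁.prod (k₂.prod k₃)
  have hk : Continuous k := hk₁.prodMk (hk₂.prodMk hk₃)
  have hninj : ¬ Function.Injective k := by
    intro hinj
    exact hcon ⟨K₁ × K₂ × K₃, inferInstance, inferInstance, inferInstance, inferInstance,
      inferInstance, k, hk, hinj⟩
  rw [injective_iff_map_eq_one] at hninj
  push Not at hninj
  obtain ⟨n, hn, hn1⟩ := hninj
  have h1 : k₁ n = 1 := congrArg Prod.fst hn
  have h23 : (k₂.prod k₃) n = 1 := congrArg Prod.snd hn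
  have h2 : k₂ n = 1 := congrArg Prod.fst h23
  have h3 : k₃ n = 1 := congrArg Prod.snd h23
  refine ⟨n, hn1, fun x => ?_, fun x => ?_, fun x => ?_⟩
  · rw [e₁, e₁, map_mul, h1, one_mul]
  · rw [e₂, e₂, map_mul, h2, one_mul]
  · rw [e₃, e₃, map_mul, h3, one_mul]

theorem condenses [IsTopologicalGroup G] [T2Space G] (hG : IsRFactorizable G)
    {I : Type v} [LinearOrder I] [WellFoundedLT I] [Uncountable I] {U : I → Set G}
    (hd : IsDiscreteFamily U) (hU : ∀ d, IsOpen (U d)) (hne : ∀ d, (U d).Nonempty)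
    {ψ : I → ℝ} (hψ : Function.Injective ψ) : CondensesToSecondCountable G := by
  classical
  by_contra hcon
  choose p hp using hne
  have hbump := fun d => exists_bump (hU d) (hp d)
  choose b hbc hb1 hb0 hbn using hbump
  -- two auxiliary functions
  let B : G → ℝ := fun x => ∑ᶠ w, b w x
  have hB : Continuous B := hd.continuous_finsum hbc hb0
  let Ψ : G → ℝ := fun x => ∑ᶠ w, ψ w * b w x
  have hΨ0 : ∀ w x, x ∉ U w → ψ w * b w x = 0 := fun w x hx => by rw [hb0 w x hx, mul_zero]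
  have hΨ : Continuous Ψ := hd.continuous_finsum (F := fun w x => ψ w * b w x)
    (fun w => (hbc w).const_mul _ |> fun h => h) hΨ0
  obtain ⟨F, hF⟩ : ∃ F : I → C(G, ℝ) × G, ∀ w : I, (F w).2 ≠ 1 ∧
      (∀ x, ∑ᶠ v : Iio w, b v.1 ((F w).2 * x) * (F v.1).1 ((F w).2 * x) =
        ∑ᶠ v : Iio w, b v.1 x * (F v.1).1 x) ∧
      (∀ x, B ((F w).2 * x) = B x) ∧ (∀ x, Ψ ((F w).2 * x) = Ψ x) ∧
      (F w).1 (p w) = 1 ∧ (F w).1 ((F w).2 * p w) = 0 := by
    refine exists_rec (W := I) (A := C(G, ℝ) × G) (fun w prev a => a.2 ≠ 1 ∧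
      (∀ x, ∑ᶠ v : Iio w, b v.1 (a.2 * x) * (prev v.1 v.2).1 (a.2 * x) =
        ∑ᶠ v : Iio w, b v.1 x * (prev v.1 v.2).1 x) ∧
      (∀ x, B (a.2 * x) = B x) ∧ (∀ x, Ψ (a.2 * x) = Ψ x) ∧
      a.1 (p w) = 1 ∧ a.1 (a.2 * p w) = 0) ?_
    intro w prev
    have hc : Continuous (fun x => ∑ᶠ v : Iio w, b v.1 x * (prev v.1 v.2).1 x) := by
      refine (hd.comp (i := fun v : Iio w => v.1) Subtype.val_injective).continuous_finsum
        (F := fun (v : Iio w) x => b v.1 x * (prev v.1 v.2).1 x) ?_ ?_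
      · intro v
        exact (hbc v.1).mul (prev v.1 v.2).1.continuous
      · intro v x hx
        rw [hb0 v.1 x hx, zero_mul]
    obtain ⟨n, hn, h1, h2, h3⟩ := exists_period hG hcon hc hB hΨ
    have hne' : p w ∈ ({n * p w}ᶜ : Set G) := by
      intro h
      apply hn
      have h' : p w = n * p w := h
      exact (mul_eq_right.mp h'.symm)
    obtain ⟨φ, hφc, hφ1, hφ0, -⟩ := exists_bump isOpen_compl_singleton hne'
    exact ⟨(⟨φ, hφc⟩, n), hn, h1, h2, h3, hφ1, hφ0 _ (by simp)⟩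
  -- the function
  have hf0 : ∀ w x, x ∉ U w → b w x * (F w).1 x = 0 := fun w x hx => by
    rw [hb0 w x hx, zero_mul]
  let f : G → ℝ := fun x => ∑ᶠ w, b w x * (F w).1 x
  have hf : Continuous f := hd.continuous_finsum (F := fun w x => b w x * (F w).1 x)
    (fun w => (hbc w).mul (F w).1.continuous) hf0
  have hfU : ∀ w x, x ∈ U w → f x = b w x * (F w).1 x := fun w x hx =>
    hd.finsum_eq (F := fun w x => b w x * (F w).1 x) hf0 hx
  have hfp : ∀ w, f (p w) = 1 := by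
    intro w
    rw [hfU w _ (hp w), hb1, (hF w).2.2.2.2.1, one_mul]
  obtain ⟨K, _, _, hKg, hK2, hKs, h, g, hh, hg, hfac⟩ := hG f hf
  obtain ⟨δ, hδ⟩ := exists_mem_closure (fun i : I => h (p i))
  set n : G := (F δ).2 with hn
  -- f (n * p ξ) = 1 for ξ < δ
  have key : ∀ ξ, ξ < δ → f (n * p ξ) = 1 := by
    intro ξ hξ
    have hdδ := hd.comp (i := fun v : Iio δ => v.1) Subtype.val_injective
    have hG0 : ∀ (v : Iio δ) x, x ∉ U v.1 → b v.1 x * (F v.1).1 x = 0 := fun v x hx =>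
      hf0 v.1 x hx
    have e1 : ∑ᶠ v : Iio δ, b v.1 (p ξ) * (F v.1).1 (p ξ) = 1 := by
      rw [hdδ.finsum_eq (F := fun (v : Iio δ) x => b v.1 x * (F v.1).1 x) hG0
        (d := ⟨ξ, hξ⟩) (hp ξ)]
      change b ξ (p ξ) * (F ξ).1 (p ξ) = 1
      rw [hb1, (hF ξ).2.2.2.2.1, one_mul]
    have e2 := (hF δ).2.1 (p ξ)
    rw [e1] at e2
    by_cases hmem : ∃ v : Iio δ, n * p ξ ∈ U v.1
    · obtain ⟨v, hv⟩ := hmem
      rw [hdδ.finsum_eq (F := fun (v : Iio δ) x => b v.1 x * (F v.1).1 x) hG0 hv] at e2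
      rw [hfU v.1 _ hv]
      exact e2
    · push Not at hmem
      exfalso
      rw [finsum_eq_zero_of_not_mem (F := fun (v : Iio δ) x => b v.1 x * (F v.1).1 x)
        hG0 hmem] at e2
      exact zero_ne_one e2
  -- by continuity f (n * p δ) = 1
  have hfin : f (n * p δ) = 1 := by
    have hcl : IsClosed {k : K | g (h n * k) = 1} :=
      isClosed_eq (hg.comp (continuous_const.mul continuous_id)) continuous_const
    have hsub : (fun i : I => h (p i)) '' Set.Iio δ ⊆ {k : K | g (h n * k) = 1} := by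
      rintro _ ⟨ξ, hξ, rfl⟩
      change g (h n * h (p ξ)) = 1
      rw [← map_mul, ← hfac]
      exact key ξ hξ
    have := (closure_minimal hsub hcl) hδ
    change g (h n * h (p δ)) = 1 at this
    rw [← map_mul, ← hfac] at this
    exact this
  -- but n * p δ ∈ U δ
  have hBp : B (n * p δ) = 1 := by
    rw [(hF δ).2.2.1]
    have : B (p δ) = b δ (p δ) := hd.finsum_eq hb0 (hp δ)
    rw [this, hb1]
  have hΨp : Ψ (n * p δ) = ψ δ := by
    rw [(hF δ).2.2.2.1]
    have : Ψ (p δ) = ψ δ * b δ (p δ) := hd.finsum_eq (F := fun w x => ψ w * b w x) hΨ0 (hp δ)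
    rw [this, hb1, mul_one]
  by_cases hmem : ∃ v, n * p δ ∈ U v
  · obtain ⟨v, hv⟩ := hmem
    have e1 : B (n * p δ) = b v (n * p δ) := hd.finsum_eq hb0 hv
    have e2 : Ψ (n * p δ) = ψ v * b v (n * p δ) :=
      hd.finsum_eq (F := fun w x => ψ w * b w x) hΨ0 hv
    rw [← e1, hBp, mul_one, hΨp] at e2
    have hvδ : v = δ := (hψ e2).symm
    rw [hvδ] at hv
    have e3 := hfU δ _ hv
    rw [(hF δ).2.2.2.2.2, mul_zero] at e3
    rw [hfin] at e3
    exact one_ne_zero e3
  · push Not at hmem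
    have : B (n * p δ) = 0 := finsum_eq_zero_of_not_mem hb0 hmem
    rw [hBp] at this
    exact one_ne_zero this

end Pool.Agent.H87RF
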